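import Pool.Agent.H547.P4.R125025

set_option autoImplicit false

/-!
# `∑ C(2j,j)³/(-64)^j ≡ (5/p) ∑ C(2j,j)C(3j,j)C(6j,3j)/20^{3j} (mod p³)` for `p ≡ 1, 3 (mod 8)`

`z ↦ z²/(1-16z)³` sends `z = -1/64` to `1/20³`, and `z = -1/64` is a fixed point of `z ↦ 1/(4096 z)`, which gives one linear
relation `2 b₁ = b₂` between the two derivative terms. The second relation is the quadratic relation `b₁² ≡ 2 b₀ b₂ (mod p³)`
(the truncated solutions lie on a conic, because the differential equation is a symmetric square; proved with bilinear first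
integrals in `𝔽_p[X]/(X^p)`). The value `b₀` is a unit by the closed form of `₃F₂(1/4,1/2,3/4;1,1;1)` modulo `p`.
-/

open Finset

namespace Pool.Agent.Results.MP_125025_nt.DiscEightModPCubed

/-- `S(p) = ∑_{0 ≤ j ≤ (p-1)/2} (-64)^{-j} C(2j,j)³` -/
def S (p : ℕ) : ℚ := ∑ j ∈ range ((p - 1) / 2 + 1), ((2 * j).choose j : ℚ) ^ 3 / (-64) ^ j

/-- `T(p) = ∑_{0 ≤ j ≤ p-1} 20^{-3j} C(2j,j) C(3j,j) C(6j,3j)` -/
def T (p : ℕ) : ℚ := ∑ j ∈ range p, (((2 * j).choose j * (3 * j).choose j * (6 * j).choose (3 * j) : ℕ) : ℚ) / 20 ^ (3 * j)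

/-- congruence modulo `p³`: `x - y = p³ u` with `u` rational, `p` not dividing the denominator of `u` -/
def Cong (p : ℕ) (x y : ℚ) : Prop := ∃ u : ℚ, ¬ p ∣ u.den ∧ x - y = (p : ℚ) ^ 3 * u

theorem result (p : ℕ) [Fact p.Prime] (hp3 : 3 < p) (h : p % 8 = 1 ∨ p % 8 = 3) :
    Cong p (S p) ((legendreSym p 5 : ℚ) * T p) := by
  have e1 : S p = Pool.Agent.H547.P4.Sb (-64) p := by
    unfold S Pool.Agent.H547.P4.Sb
    push_cast
    rfl
  have e2 : T p = Pool.Agent.H547.P3.Rd1f0b8.T 20 p := by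
    unfold T Pool.Agent.H547.P3.Rd1f0b8.T
    refine sum_congr rfl fun k _ => ?_
    push_cast
    ring
  rw [e1, e2]
  exact Pool.Agent.H547.P4.R125025.main p hp3 h

end Pool.Agent.Results.MP_125025_nt.DiscEightModPCubed
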